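import Pool.Agent.Helper12.NK.St

/-!
# Project NK (MP_d63854_co): module CMB
-/

set_option autoImplicit false

namespace Pool.Agent.Helper12.NK

/-- distances on the cycle -/
private theorem dist_ex {m : ℕ} (hm : 3 ≤ m) (i j : ZMod m) : ∃ t : ℕ, t < m ∧ j = i + (t : ℕ) := by
  have : NeZero m := ⟨by omega⟩
  refine ⟨(j - i).val, ZMod.val_lt _, ?_⟩
  rw [ZMod.natCast_zmod_val]
  ring

private theorem cast_m {m : ℕ} (i : ZMod m) (t s : ℕ) (h : s = t + m) : i + (s : ZMod m) = i + (t : ZMod m) := by
  subst h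
  push_cast
  simp

/-- the statement for a fixed base point: `a t`, `b t` say that the point at distance `t` is in `A`, `B` -/
theorem hCMB : StCMB := by
  classical
  intro V m c A B hm hinj hA hB
  have : NeZero m := ⟨by omega⟩
  by_cases hcr : Crs m c A B
  · exact Or.inr hcr
  left
  have hex : ∀ (i : ZMod m) (x : V), x ∈ Set.range c → ∃ t : ℕ, t < m ∧ x = c (i + (t : ℕ)) := by
    rintro i x ⟨j, rfl⟩
    obtain ⟨t, ht, h⟩ := dist_ex hm i j
    exact ⟨t, ht, by rw [h]⟩
  -- no crossing of the first form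
  have hno : ∀ (i : ZMod m) (r s t : ℕ), 0 < r → r < s → s < t → t < m → c i ∈ A → c (i + (r : ℕ)) ∈ B →
      c (i + (s : ℕ)) ∈ A → c (i + (t : ℕ)) ∈ B → False := by
    intro i r s t h1 h2 h3 h4 a1 a2 a3 a4
    exact hcr (Or.inl ⟨i, r, s, t, h1, h2, h3, h4, a1, a2, a3, a4⟩)
  -- the same with the base point at distance `p`
  have hno' : ∀ (i : ZMod m) (p r s t : ℕ), p < r → r < s → s < t → t < p + m → c (i + (p : ℕ)) ∈ A →
      c (i + (r : ℕ)) ∈ B → c (i + (s : ℕ)) ∈ A → c (i + (t : ℕ)) ∈ B → False := by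
    intro i p r s t h1 h2 h3 h4 a1 a2 a3 a4
    refine hno (i + (p : ℕ)) (r - p) (s - p) (t - p) (by omega) (by omega) (by omega) (by omega) a1 ?_ ?_ ?_
    · rw [add_assoc, ← Nat.cast_add, Nat.add_sub_cancel' h1.le]; exact a2
    · rw [add_assoc, ← Nat.cast_add, Nat.add_sub_cancel' (by omega)]; exact a3
    · rw [add_assoc, ← Nat.cast_add, Nat.add_sub_cancel' (by omega)]; exact a4
  by_cases hBA : ∃ b ∈ B, b ∉ A
  · -- case 1
    obtain ⟨b, hb, hbA⟩ := hBA
    obtain ⟨i₀, hi₀⟩ := hB hb
    by_cases hAe : A = ∅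
    · refine ⟨i₀, 0, by omega, ?_, ?_⟩
      · intro x hx
        rw [hAe] at hx
        exact absurd hx (Set.notMem_empty x)
      · intro x hx
        obtain ⟨t, ht, h⟩ := hex i₀ x (hB hx)
        exact ⟨t, by omega, by omega, h⟩
    · -- smallest and largest distance of an element of A
      obtain ⟨a0, ha0⟩ := Set.nonempty_iff_ne_empty.2 hAe
      let T : Finset ℕ := (Finset.range m).filter fun t => c (i₀ + (t : ℕ)) ∈ A
      have hTne : T.Nonempty := by
        obtain ⟨t, ht, h⟩ := hex i₀ a0 (hA ha0)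
        exact ⟨t, by simp only [T, Finset.mem_filter, Finset.mem_range]; exact ⟨ht, h ▸ ha0⟩⟩
      have hmemT : ∀ t, t ∈ T ↔ (t < m ∧ c (i₀ + (t : ℕ)) ∈ A) := by
        intro t
        simp only [T, Finset.mem_filter, Finset.mem_range]
      obtain ⟨hpm, hpA⟩ := (hmemT _).1 (T.min'_mem hTne)
      obtain ⟨hqm, hqA⟩ := (hmemT _).1 (T.max'_mem hTne)
      set p := T.min' hTne with hp
      set q := T.max' hTne with hq
      have hpq : p ≤ q := T.min'_le _ (T.max'_mem hTne)
      have hp0 : 0 < p := by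
        rcases Nat.eq_zero_or_pos p with h | h
        · exfalso
          rw [h] at hpA
          simp only [Nat.cast_zero, add_zero] at hpA
          exact hbA (hi₀ ▸ hpA)
        · exact h
      have hbm : c (i₀ + (m : ℕ)) ∈ B := by
        simp only [ZMod.natCast_self, add_zero]
        rw [hi₀]
        exact hb
      have hBno : ∀ t, p < t → t < q → c (i₀ + (t : ℕ)) ∉ B := by
        intro t h1 h2 h3
        exact hno' i₀ p t q m h1 h2 hqm (by omega) hpA h3 hqA hbm
      refine ⟨i₀ + (p : ℕ), q - p, by omega, ?_, ?_⟩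
      · intro x hx
        obtain ⟨t, ht, h⟩ := hex i₀ x (hA hx)
        have htT : t ∈ T := (hmemT t).2 ⟨ht, h ▸ hx⟩
        have h1 : p ≤ t := T.min'_le _ htT
        have h2 : t ≤ q := T.le_max' _ htT
        refine ⟨t - p, by omega, ?_⟩
        rw [h, add_assoc, ← Nat.cast_add, Nat.add_sub_cancel' h1]
      · intro x hx
        obtain ⟨t, ht, h⟩ := hex i₀ x (hB hx)
        by_cases htp : t ≤ p
        · refine ⟨t + m - p, by omega, by omega, ?_⟩
          rw [h, add_assoc, ← Nat.cast_add, Nat.add_sub_cancel' (by omega : p ≤ t + m), cast_m i₀ t (t + m) rfl]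
        · push Not at htp
          have h2 : q ≤ t := by
            by_contra hlt
            push Not at hlt
            exact hBno t htp hlt (h ▸ hx)
          refine ⟨t - p, by omega, by omega, ?_⟩
          rw [h, add_assoc, ← Nat.cast_add, Nat.add_sub_cancel' htp.le]
  · -- case 2: B is contained in A
    push Not at hBA
    have hthree : ∀ x y z, x ≠ y → y ≠ z → x ≠ z → x ∈ B → y ∈ B → z ∈ B → False := by
      intro x y z h1 h2 h3 hx hy hz
      exact hcr (Or.inr ⟨x, y, z, h1, h2, h3, hBA x hx, hx, hBA y hy, hy, hBA z hz, hz⟩)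
    by_cases hBe : B = ∅
    · refine ⟨0, m, le_refl _, ?_, ?_⟩
      · intro x hx
        obtain ⟨t, ht, h⟩ := hex 0 x (hA hx)
        exact ⟨t, ht.le, h⟩
      · intro x hx
        rw [hBe] at hx
        exact absurd hx (Set.notMem_empty x)
    obtain ⟨b, hb⟩ := Set.nonempty_iff_ne_empty.2 hBe
    obtain ⟨i₀, hi₀⟩ := hB hb
    by_cases hB1 : ∀ x ∈ B, x = b
    · refine ⟨i₀, m, le_refl _, ?_, ?_⟩
      · intro x hx
        obtain ⟨t, ht, h⟩ := hex i₀ x (hA hx)
        exact ⟨t, ht.le, h⟩
      · intro x hx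
        refine ⟨m, le_refl _, le_refl _, ?_⟩
        rw [hB1 x hx]
        simp only [ZMod.natCast_self, add_zero]
        exact hi₀.symm
    · push Not at hB1
      obtain ⟨b', hb', hne⟩ := hB1
      obtain ⟨t₀, ht₀, hbt⟩ := hex i₀ b' (hB hb')
      have ht0 : 0 < t₀ := by
        rcases Nat.eq_zero_or_pos t₀ with h | h
        · exfalso
          rw [h] at hbt
          simp only [Nat.cast_zero, add_zero] at hbt
          exact hne (hbt.trans hi₀)
        · exact h
      have hBtwo : ∀ x ∈ B, x = b ∨ x = b' := by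
        intro x hx
        by_contra h
        push Not at h
        exact hthree x b b' h.1 (Ne.symm hne) h.2 hx hb hb'
      have hbB : c (i₀ + (m : ℕ)) ∈ B := by
        simp only [ZMod.natCast_self, add_zero]
        rw [hi₀]
        exact hb
      have hbB' : c (i₀ + (t₀ : ℕ)) ∈ B := hbt ▸ hb'
      by_cases hq : ∃ q, t₀ < q ∧ q < m ∧ c (i₀ + (q : ℕ)) ∈ A
      · obtain ⟨q, hq1, hq2, hqA⟩ := hq
        have hp : ∀ p, 0 < p → p < t₀ → c (i₀ + (p : ℕ)) ∉ A := by
          intro p h1 h2 h3
          exact hno' i₀ p t₀ q m h2 hq1 hq2 (by omega) h3 hbB' hqA hbB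
        refine ⟨i₀ + (t₀ : ℕ), m - t₀, by omega, ?_, ?_⟩
        · intro x hx
          obtain ⟨t, ht, h⟩ := hex i₀ x (hA hx)
          by_cases h0 : t = 0
          · refine ⟨m - t₀, le_refl _, ?_⟩
            rw [h, add_assoc, ← Nat.cast_add, Nat.add_sub_cancel' ht₀.le, h0]
            simp
          · have h1 : t₀ ≤ t := by
              by_contra hlt
              exact hp t (by omega) (by omega) (h ▸ hx)
            refine ⟨t - t₀, by omega, ?_⟩
            rw [h, add_assoc, ← Nat.cast_add, Nat.add_sub_cancel' h1]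
        · intro x hx
          rcases hBtwo x hx with h | h
          · refine ⟨m - t₀, le_refl _, by omega, ?_⟩
            rw [h, add_assoc, ← Nat.cast_add, Nat.add_sub_cancel' ht₀.le]
            simp only [ZMod.natCast_self, add_zero]
            exact hi₀.symm
          · refine ⟨m, by omega, le_refl _, ?_⟩
            rw [h, hbt]
            simp
      · push Not at hq
        refine ⟨i₀, t₀, ht₀.le, ?_, ?_⟩
        · intro x hx
          obtain ⟨t, ht, h⟩ := hex i₀ x (hA hx)
          refine ⟨t, ?_, h⟩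
          by_contra hlt
          push Not at hlt
          exact hq t hlt ht (h ▸ hx)
        · intro x hx
          rcases hBtwo x hx with h | h
          · refine ⟨m, ht₀.le, le_refl _, ?_⟩
            rw [h]
            simp only [ZMod.natCast_self, add_zero]
            exact hi₀.symm
          · exact ⟨t₀, le_refl _, ht₀.le, h.trans hbt⟩

end Pool.Agent.Helper12.NK
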