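import Pool.Agent.Helper51.AJ.Basic
import Pool.Agent.Helper35.PM.St

/-!
# Project NK (MP_d63854_co): definitions

THEOREM.  Let `G` be a graph with at least 7 vertices in which every vertex cut with at most five vertices has exactly five
vertices and is independent (equivalently: every graph `G / e` is 5-connected; for instance every 6-connected graph).  Then
`G` is not an excluded minor of the class of apex graphs.

All graphs are finite.  From project AJ: `IsMinor`, `Planar` (no `K₅`, no `K₃,₃` minor), `Apex`, `ExMinor`, `Con G S` (`S` induces a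
connected subgraph, in particular `S ≠ ∅`), `Tch G S T` (some edge from `S` to `T`).  From project PM: `Rot H` (planar rotation systems
of `H`), `Helper35.PM.Planar H` (there is one), called RPlanar here.
-/

set_option autoImplicit false

namespace Pool.Agent.Helper12.NK

open Pool.Agent.Helper51.AJ (IsMinor Planar Apex ExMinor Con Tch)
open Pool.Agent.Helper35.PM (Rot)

variable {V : Type}

/-- planarity by rotation systems -/
abbrev RPlanar (H : SimpleGraph V) : Prop := Pool.Agent.Helper35.PM.Planar H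

/-- the graph `G` restricted to `U` (the other vertices become isolated) -/
def rst (G : SimpleGraph V) (U : Set V) : SimpleGraph V where
  Adj a b := G.Adj a b ∧ a ∈ U ∧ b ∈ U
  symm := ⟨fun _ _ h => ⟨h.1.symm, h.2.2, h.2.1⟩⟩
  loopless := ⟨fun _ h => G.ne_of_adj h.1 rfl⟩

/-- `G` is `k`-connected on `U` -/
def Kc (k : ℕ) (G : SimpleGraph V) (U : Set V) : Prop :=
  k < U.ncard ∧ ∀ X : Set V, X.ncard < k → Con G (U \ X)

/-- the graph `H` with new edges from `y` to the elements of `N` -/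
def add (H : SimpleGraph V) (y : V) (N : Set V) : SimpleGraph V where
  Adj a b := H.Adj a b ∨ (a = y ∧ b ∈ N ∧ b ≠ y) ∨ (b = y ∧ a ∈ N ∧ a ≠ y)
  symm := ⟨fun _ _ h => by
    rcases h with h | h | h
    · exact Or.inl h.symm
    · exact Or.inr (Or.inr h)
    · exact Or.inr (Or.inl h)⟩
  loopless := ⟨fun _ h => by
    rcases h with h | h | h
    · exact H.ne_of_adj h rfl
    · exact h.2.2 h.1
    · exact h.2.2 h.1⟩

/-- the contraction of `v` into `u` (`v` becomes isolated) -/
def cnt (G : SimpleGraph V) (u v : V) : SimpleGraph V where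
  Adj a b := a ≠ b ∧ a ≠ v ∧ b ≠ v ∧ (G.Adj a b ∨ (a = u ∧ G.Adj v b) ∨ (b = u ∧ G.Adj v a))
  symm := ⟨fun _ _ h => by
    refine ⟨h.1.symm, h.2.2.1, h.2.1, ?_⟩
    rcases h.2.2.2 with h | h | h
    · exact Or.inl h.symm
    · exact Or.inr (Or.inr h)
    · exact Or.inr (Or.inl h)⟩
  loopless := ⟨fun _ h => h.1 rfl⟩

/-- a peripheral cycle of `G` on `U`: an induced cycle whose complement in `U` is connected (and nonempty) -/
def Pcy (G : SimpleGraph V) (U : Set V) (m : ℕ) (c : ZMod m → V) : Prop :=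
  3 ≤ m ∧ Function.Injective c ∧ Set.range c ⊆ U ∧ (∀ i j, G.Adj (c i) (c j) ↔ (j = i + 1 ∨ i = j + 1)) ∧
    Con G (U \ Set.range c)

/-- `F` is a face of `G` on `U`: the vertex set of a peripheral cycle -/
def IsFace (G : SimpleGraph V) (U F : Set V) : Prop :=
  ∃ (m : ℕ) (c : ZMod m → V), Pcy G U m c ∧ Set.range c = F

/-- some face contains `a` and `b` -/
def Cof (G : SimpleGraph V) (U : Set V) (a b : V) : Prop := ∃ F, IsFace G U F ∧ a ∈ F ∧ b ∈ F

/-- the graph `G` on `U` with a new vertex for every face, joined to all vertices of the face -/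
def plus (G : SimpleGraph V) (U : Set V) : SimpleGraph (V ⊕ {F : Set V // IsFace G U F}) where
  Adj
    | Sum.inl a, Sum.inl b => (rst G U).Adj a b
    | Sum.inl a, Sum.inr F => a ∈ F.1
    | Sum.inr F, Sum.inl a => a ∈ F.1
    | Sum.inr _, Sum.inr _ => False
  symm := ⟨fun x y h => by
    rcases x with x | x <;> rcases y with y | y
    · exact (rst G U).adj_symm h
    · exact h
    · exact h
    · exact h⟩
  loopless := ⟨fun x h => by
    rcases x with x | x
    · exact (rst G U).ne_of_adj h rfl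
    · exact h⟩

/-- the closed walk `c 0, ..., c (m-1)`: `A` lies on one arc and `B` on the complementary arc (the arcs are closed) -/
def NCr (m : ℕ) {α : Type} (c : ZMod m → α) (A B : Set α) : Prop :=
  ∃ (i : ZMod m) (k : ℕ), k ≤ m ∧ (∀ x ∈ A, ∃ t : ℕ, t ≤ k ∧ x = c (i + t)) ∧
    (∀ x ∈ B, ∃ t : ℕ, k ≤ t ∧ t ≤ m ∧ x = c (i + t))

/-- `A` and `B` cross on the closed walk `c`: four different positions in cyclic order in `A`, `B`, `A`, `B`, or three common
elements -/
def Crs (m : ℕ) {α : Type} (c : ZMod m → α) (A B : Set α) : Prop :=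
  (∃ (i : ZMod m) (r s t : ℕ), 0 < r ∧ r < s ∧ s < t ∧ t < m ∧ c i ∈ A ∧ c (i + r) ∈ B ∧ c (i + s) ∈ A ∧
    c (i + t) ∈ B) ∨
  (∃ x y z, x ≠ y ∧ y ≠ z ∧ x ≠ z ∧ x ∈ A ∧ x ∈ B ∧ y ∈ A ∧ y ∈ B ∧ z ∈ A ∧ z ∈ B)

/-! ### faces of rotation systems -/

/-- the vertices of the face of the dart `d` -/
def fac {H : SimpleGraph V} (R : Rot H) (d : H.Dart) : Set V := {x | ∃ e : H.Dart, R.φ.SameCycle d e ∧ e.fst = x}

/-- `c` is a face of the rotation system `R` which visits every vertex at most once -/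
def FCy {H : SimpleGraph V} (R : Rot H) (m : ℕ) (c : ZMod m → V) : Prop :=
  3 ≤ m ∧ Function.Injective c ∧
    ∀ j, ∃ e e' : H.Dart, e.toProd = (c j, c (j + 1)) ∧ e'.toProd = (c (j + 1), c (j + 1 + 1)) ∧ R.φ e = e'

/-- the graph with a new vertex for every face of `R` (cycle of the face permutation) -/
def rplus {H : SimpleGraph V} (R : Rot H) :
    SimpleGraph (V ⊕ Quotient (Equiv.Perm.SameCycle.setoid R.φ)) where
  Adj
    | Sum.inl a, Sum.inl b => H.Adj a b
    | Sum.inl a, Sum.inr q => ∃ e : H.Dart, Quotient.mk _ e = q ∧ e.fst = a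
    | Sum.inr q, Sum.inl a => ∃ e : H.Dart, Quotient.mk _ e = q ∧ e.fst = a
    | Sum.inr _, Sum.inr _ => False
  symm := ⟨fun x y h => by
    rcases x with x | x <;> rcases y with y | y
    · exact H.adj_symm h
    · exact h
    · exact h
    · exact h⟩
  loopless := ⟨fun x h => by
    rcases x with x | x
    · exact H.ne_of_adj h rfl
    · exact h⟩

/-! ### the hypotheses on the excluded minor -/

/-- at least 7 vertices; no vertex cut with at most 4 vertices, and none with 5 vertices which contains an edge -/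
def Hyp (G : SimpleGraph V) : Prop :=
  7 ≤ Nat.card V ∧ ∀ X : Set V, X.ncard ≤ 5 → (X.ncard = 5 → ∃ u ∈ X, ∃ v ∈ X, G.Adj u v) → Con G Xᶜ

/-- no vertex is an apex -/
def HN (G : SimpleGraph V) : Prop := ∀ x, ¬ Planar (rst G {x}ᶜ)

/-- all graphs `G \ e` are apex -/
def HD (G : SimpleGraph V) : Prop :=
  ∀ y f, G.Adj y f → ∃ x, x ≠ y ∧ x ≠ f ∧ Planar (add (rst G {x, y}ᶜ) y ({b | G.Adj y b} \ {x, f}))

/-- all graphs `G / e` are apex -/
def HK (G : SimpleGraph V) : Prop :=
  ∀ u v, G.Adj u v → Planar (rst G {u, v}ᶜ) ∨ ∃ y, y ≠ u ∧ y ≠ v ∧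
    Planar (add (rst G {u, v, y}ᶜ) u {b | (G.Adj u b ∨ G.Adj v b) ∧ b ≠ u ∧ b ≠ v ∧ b ≠ y})

/-- the vertices `x ≠ y` with `G - x - y` planar -/
def PiS (G : SimpleGraph V) (y : V) : Set V := {x | x ≠ y ∧ Planar (rst G {x, y}ᶜ)}

end Pool.Agent.Helper12.NK
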