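import Pool.Agent.Helper12.NK.St

/-!
# Project NK (MP_d63854_co): graphs with at most six vertices, and the final statement
-/

set_option autoImplicit false

namespace Pool.Agent.Helper12.NK

open Pool.Agent.Helper51.AJ

/-- points of the branch sets -/
private theorem rep {W V : Type} {H : SimpleGraph W} {G : SimpleGraph V} (h : IsMinor H G) :
    ∃ (φ : W → Set V) (f : W → V), (∀ w, f w ∈ φ w) ∧ (∀ w w', w ≠ w' → Disjoint (φ w) (φ w')) ∧
      Function.Injective f ∧ ∀ w w', H.Adj w w' → ∃ x ∈ φ w, ∃ y ∈ φ w', G.Adj x y := by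
  obtain ⟨φ, h1, h2, h3⟩ := h
  have hne : ∀ w, (φ w).Nonempty := fun w => con_nonempty (h1 w)
  choose f hf using hne
  refine ⟨φ, f, hf, h2, ?_, h3⟩
  intro w w' hww
  by_contra hne
  have := Set.disjoint_left.1 (h2 w w' hne) (hf w)
  rw [hww] at this
  exact this (hf w')

/-- in a graph with at most six vertices which is not apex all pairs are adjacent, and there are six vertices -/
theorem small {V : Type} [Finite V] (G : SimpleGraph V) (h : ¬ Apex G) (h6 : Nat.card V ≤ 6) :
    Nonempty ((⊤ : SimpleGraph (Fin 6)) ≃g G) := by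
  classical
  unfold Apex at h
  push Not at h
  obtain ⟨h0, h1⟩ := h
  -- the vertices after the deletion of one
  have key : ∀ v : V, 6 ≤ Nat.card V ∧ ∀ a b : V, a ≠ v → b ≠ v → a ≠ b → G.Adj a b := by
    intro v
    have hcard : Nat.card ({v}ᶜ : Set V) + 1 = Nat.card V := by
      have := Set.ncard_add_ncard_compl ({v} : Set V)
      rw [Set.ncard_singleton] at this
      rw [← this, Nat.card_coe_set_eq]
      omega
    have hnp := h1 v
    unfold Planar at hnp
    rw [not_and_or, not_not, not_not] at hnp
    rcases hnp with hm | hm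
    · obtain ⟨φ, f, hf, hd, hinj, hadj⟩ := rep hm
      have hle : 5 ≤ Nat.card ({v}ᶜ : Set V) := by
        have := Nat.card_le_card_of_injective f hinj
        simpa using this
      have hc5 : Nat.card (Fin 5) = Nat.card ({v}ᶜ : Set V) := by
        rw [Nat.card_eq_fintype_card, Fintype.card_fin]
        omega
      have hbij : Function.Bijective f := by
        have := (Nat.bijective_iff_injective_and_card f).2 ⟨hinj, hc5⟩
        exact this
      refine ⟨by omega, ?_⟩
      intro a b ha hb hab
      obtain ⟨w, hw⟩ := hbij.2 ⟨a, ha⟩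
      obtain ⟨w', hw'⟩ := hbij.2 ⟨b, hb⟩
      have hww : w ≠ w' := by
        intro h
        rw [h, hw'] at hw
        exact hab (congrArg Subtype.val hw).symm
      obtain ⟨x, hx, y, hy, hxy⟩ := hadj w w' hww
      have hone : ∀ (u : Fin 5) (z : ({v}ᶜ : Set V)), z ∈ φ u → z = f u := by
        intro u z hz
        obtain ⟨u', hu'⟩ := hbij.2 z
        have : u' = u := by
          by_contra hne
          have := Set.disjoint_left.1 (hd u' u hne) (hf u')
          rw [hu'] at this
          exact this hz
        rw [← hu', this]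
      have hx' := hone w x hx
      have hy' := hone w' y hy
      rw [hw] at hx'
      rw [hw'] at hy'
      rw [hx', hy'] at hxy
      exact hxy
    · exfalso
      obtain ⟨φ, f, hf, hd, hinj, hadj⟩ := rep hm
      have := Nat.card_le_card_of_injective f hinj
      simp at this
      have hc2 : Nat.card ({v}ᶜ : Set V) ≤ 5 := by omega
      rw [Nat.card_coe_set_eq] at hc2
      have h3 : (3 : ℕ) + 3 ≤ ({v}ᶜ : Set V).ncard := by
        have := Nat.card_le_card_of_injective f hinj
        rw [Nat.card_sum, Nat.card_eq_fintype_card, Fintype.card_fin, Nat.card_coe_set_eq] at this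
        exact this
      omega
  -- there is a vertex
  have hne : Nonempty V := by
    by_contra hemp
    rw [not_nonempty_iff] at hemp
    apply h0
    constructor
    · intro hm
      obtain ⟨φ, f, _⟩ := rep hm
      exact hemp.elim (f 0)
    · intro hm
      obtain ⟨φ, f, _⟩ := rep hm
      exact hemp.elim (f (Sum.inl 0))
  obtain ⟨v0⟩ := hne
  have hc6 : Nat.card V = 6 := le_antisymm h6 (key v0).1
  have hall : ∀ a b : V, a ≠ b → G.Adj a b := by
    intro a b hab
    have hex : ∃ v : V, v ∉ ({a, b} : Set V) := by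
      by_contra hno
      push Not at hno
      have huniv : (Set.univ : Set V) ⊆ {a, b} := fun x _ => hno x
      have h1 := Set.ncard_le_ncard huniv (Set.toFinite _)
      rw [Set.ncard_univ, hc6] at h1
      have h2 := Set.ncard_pair hab
      omega
    obtain ⟨v, hv⟩ := hex
    have hva : v ≠ a := fun h => hv (by simp [h])
    have hvb : v ≠ b := fun h => hv (by simp [h])
    exact (key v).2 a b hva.symm hvb.symm hab
  have hG : G = ⊤ := by
    ext a b
    exact ⟨fun h => G.ne_of_adj h, fun h => hall a b h⟩
  subst hG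
  have e : Fin 6 ≃ V := (Finite.equivFinOfCardEq hc6).symm
  exact ⟨SimpleGraph.Iso.completeGraph e⟩

/-- the final statement -/
theorem fin (hEXM : StEXM) (hSTD : StSTD) (V : Type) [Finite V] (G : SimpleGraph V) (hG : ExMinor G)
    (hK : ¬ Nonempty ((⊤ : SimpleGraph (Fin 6)) ≃g G)) :
    ∃ X : Set V, X.ncard ≤ 5 ∧ (X.ncard = 5 → ∃ u ∈ X, ∃ v ∈ X, G.Adj u v) ∧
      ¬ (G.induce Xᶜ).Preconnected := by
  by_contra hno
  push Not at hno
  have h7 : 7 ≤ Nat.card V := by
    by_contra hlt
    exact hK (small G hG.1 (by omega))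
  have hH : Hyp G := by
    refine ⟨h7, ?_⟩
    intro X hX hX5
    have hpre := hno X hX hX5
    have hne : (Xᶜ : Set V).Nonempty := by
      by_contra hemp
      rw [Set.not_nonempty_iff_eq_empty, Set.compl_empty_iff] at hemp
      rw [hemp, Set.ncard_univ] at hX
      omega
    have : Nonempty (Xᶜ : Set V) := hne.to_subtype
    exact ⟨hpre⟩
  obtain ⟨hN, hD, hC⟩ := hEXM V G h7 hG
  exact hSTD V G hH hN hD hC

end Pool.Agent.Helper12.NK
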