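import Pool.Agent.Helper12.NK.Fin
import Pool.Agent.Helper86.NK.M_PTR
import Pool.Agent.Helper45.NK.M_PAR
import Pool.Agent.Helper36.NK.M_KCA
import Pool.Agent.Helper34.NK.M_KCB
import Pool.Agent.Helper61.NK.M_MNR
import Pool.Agent.Helper12.NK.M_CMB
import Pool.Agent.Helper81.NK.M_CMC
import Pool.Agent.Helper29.NK.M_CRX
import Pool.Agent.Helper71.NK.M_RPW
import Pool.Agent.Helper78.NK.M_PLU
import Pool.Agent.Helper16.NK.M_FCY
import Pool.Agent.Helper10.NK.M_PER
import Pool.Agent.Helper86.NK.M_FAC
import Pool.Agent.Helper7.NK.M_RDL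
import Pool.Agent.Helper6.NK.M_RDN
import Pool.Agent.Helper90.NK.M_INT
import Pool.Agent.Helper69.NK.M_CTR
import Pool.Agent.Helper8.NK.M_KUR
import Pool.Agent.Helper38.NK.M_TUT
import Pool.Agent.Helper30.NK.M_INS
import Pool.Agent.Helper64.NK.M_PLS
import Pool.Agent.Helper24.NK.M_EDF
import Pool.Agent.Helper80.NK.M_FDL
import Pool.Agent.Helper47.NK.M_FPA
import Pool.Agent.Helper83.NK.M_FPB
import Pool.Agent.Helper28.NK.M_FPC
import Pool.Agent.Helper19.NK.M_EXM
import Pool.Agent.Helper58.NK.M_HCN
import Pool.Agent.Helper1.NK.M_STA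
import Pool.Agent.Helper79.NK.M_STB
import Pool.Agent.Helper9.NK.M_STC
import Pool.Agent.Helper96.NK.M_STD

/-!
# MP_d63854_co: the connectivity of the excluded minors of the class of apex graphs

All graphs are finite and simple (an excluded minor of the class of apex graphs has no loops and no parallel edges).
`IsMinor`, `Planar`, `ExMinor` are defined in `Pool/Agent/Helper51/AJ/Defs.lean`.

Proof (paper proof in the docstrings of `Pool/Agent/Helper12/NK/St.lean`).  Suppose that `G` is an excluded minor with at least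
seven vertices in which every vertex cut with at most five vertices consists of five pairwise nonadjacent vertices.  Then
`G - x - y` is 3-connected, `G - u - v` is 4-connected and `G - u - v - y` is 3-connected for every edge `u v`.
Step 1: for every edge `y f` the graph `G \ y f` has an apex vertex `x(f)` different from `y` and `f`, and `f` determines `x(f)`
injectively, because two faces of the 3-connected planar graph `G - x - y` have at most two common vertices, and two only if they
are adjacent; so there are at least `deg y` vertices `x` with `G - x - y` planar.  Step 2: if `G - u - v` is not planar for an edge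
`u v` then `G / u v` minus some vertex `y` is planar; the neighbours of `u` and of `v` cross on a facial cycle of `G - u - v - y`, at
most two vertices meet all crossings, so at most four vertices `x` have the property that `G - x - y` is planar, contradiction.
Step 3: so `G - u - v` is planar for every edge `u v`, and comparing the faces of `G - u - v` with those of `G - u - v - w` for the
neighbours `w` of `u` and `v` gives a contradiction in all cases.  The theory of faces of 3-connected planar graphs (Kuratowski,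
Tutte, Whitney) is proved from rotation systems.
-/

set_option autoImplicit false

namespace Pool.Agent.Helper12.NK.Res

open Pool.Agent.Helper51.AJ Pool.Agent.Helper12.NK

/-- Every excluded minor of the class of apex graphs other than `K₆` has a vertex cut `X` with at most five vertices, and if `X`
has exactly five vertices then some two of them are adjacent.  So its connectivity is at most five. -/
theorem result (V : Type) [Finite V] (G : SimpleGraph V) (hG : ExMinor G)
    (hK : ¬ Nonempty ((⊤ : SimpleGraph (Fin 6)) ≃g G)) :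
    ∃ X : Set V, X.ncard ≤ 5 ∧ (X.ncard = 5 → ∃ u ∈ X, ∃ v ∈ X, G.Adj u v) ∧
      ¬ (G.induce Xᶜ).Preconnected := by
  have tPTR : StPTR := Pool.Agent.Helper86.NK.hPTR
  have tPAR : StPAR := Pool.Agent.Helper45.NK.hPAR
  have tKCA : StKCA := Pool.Agent.Helper36.NK.hKCA tPTR
  have tKCB : StKCB := Pool.Agent.Helper34.NK.hKCB
  have tMNR : StMNR := Pool.Agent.Helper61.NK.hMNR
  have tCMB : StCMB := Pool.Agent.Helper12.NK.hCMB
  have tCMC : StCMC := Pool.Agent.Helper81.NK.hCMC
  have tCRX : StCRX := Pool.Agent.Helper29.NK.hCRX tMNR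
  have tRPW : StRPW := Pool.Agent.Helper71.NK.hRPW
  have tPLU : StPLU := Pool.Agent.Helper78.NK.hPLU
  have tFCY : StFCY := Pool.Agent.Helper16.NK.hFCY tKCA
  have tPER : StPER := Pool.Agent.Helper10.NK.hPER tKCA tKCB tPAR tMNR tCMB tCRX tPLU tRPW tFCY
  have tFAC : StFAC := Pool.Agent.Helper86.NK.hFAC tKCA tMNR tPLU tRPW tFCY tPER
  have tRDL : StRDL := Pool.Agent.Helper7.NK.hRDL
  have tRDN : StRDN := Pool.Agent.Helper6.NK.hRDN tKCA tFCY
  have tINT : StINT := Pool.Agent.Helper90.NK.hINT
  have tCTR : StCTR := Pool.Agent.Helper69.NK.hCTR tKCA tKCB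
  have tKUR : StKUR := Pool.Agent.Helper8.NK.hKUR tKCA tCMB tCRX tFCY tRDN tINT tCTR
  have tTUT : StTUT := Pool.Agent.Helper38.NK.hTUT tKCA tKCB tKUR tRDN tFCY tPER tINT tRPW
  have tINS : StINS := Pool.Agent.Helper30.NK.hINS tPTR tKUR tFAC tPLU tRPW
  have tPLS : StPLS := Pool.Agent.Helper64.NK.hPLS tPTR tKUR tFAC tPLU tRPW
  have tEDF : StEDF := Pool.Agent.Helper24.NK.hEDF tKCA tKCB tMNR tKUR tFCY tPER tPLU tRPW
  have tFDL : StFDL := Pool.Agent.Helper80.NK.hFDL tKCA tKUR tRDL tFAC tFCY tPER
  have tFPA : StFPA := Pool.Agent.Helper47.NK.hFPA tKCA tKCB tPAR tMNR tPLS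
  have tFPB : StFPB := Pool.Agent.Helper83.NK.hFPB tKCA tKCB tPAR tMNR tPLS
  have tFPC : StFPC := Pool.Agent.Helper28.NK.hFPC tMNR tPLS
  have tEXM : StEXM := Pool.Agent.Helper19.NK.hEXM tPTR tKCA
  have tHCN : StHCN := Pool.Agent.Helper58.NK.hHCN
  have tSTA : StSTA := Pool.Agent.Helper1.NK.hSTA tKCA tHCN tTUT tINS tFPA
  have tSTB : StSTB := Pool.Agent.Helper79.NK.hSTB tKCA tHCN tTUT tCMB tCMC tCRX tSTA
  have tSTC : StSTC := Pool.Agent.Helper9.NK.hSTC tKCA tFPA tFPB tFPC tEDF
  have tSTD : StSTD := Pool.Agent.Helper96.NK.hSTD tKCA tHCN tSTB tINS tTUT tFDL tSTC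
  exact Pool.Agent.Helper12.NK.fin tEXM tSTD V G hG hK

end Pool.Agent.Helper12.NK.Res
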