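import Pool.Agent.Helper12.NK.Defs

/-!
# Project NK (MP_d63854_co): statements of the modules, with proofs

A module may use every other statement `St...` of this file, of AJ (`Helper51/AJ/St.lean`; proved there: `StTrn`, `StJnm`, `StCon`,
see `Results/MP_d63854_co/JoinExcludedMinors.lean` for the names) and of PM (`Helper35/PM/All.lean`: `stJor`, `stCutV`, `stMin`, `stEul`,
`stTop2`, `stGrid`, ...) as a hypothesis, or import the proved ones.  `Helper51/AJ/Basic.lean` has `con_union`, `con_singleton`,
`tch_mono`, ...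
A component of a set `W` = a maximal `K ⊆ W` with `Con G K`.
-/

set_option autoImplicit false

namespace Pool.Agent.Helper12.NK

open Pool.Agent.Helper51.AJ (IsMinor Planar Apex ExMinor Con Tch)
open Pool.Agent.Helper35.PM (Rot)

/-! ### generalities on connectivity -/

/-- PAR.  Two disjoint connected subsets of a connected set extend to a partition into two connected sets.
Proof.  Among the sets `K'` with `K ⊆ K' ⊆ W \ L`, `Con G K'`, take one with the most elements, `L' = W \ K'`.  `Tch G K' L'`: AJ.StCon (1) for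
`T = K'` (`K' ≠ W` since `L ≠ ∅`).  `L'` is connected: let `M` be the component of `L'` containing `L` (`L` is connected), suppose `M ≠ L'` and let
`N` be a component of `L'` different from `M`.  `N ≠ W`, so there is an edge from `N` to `W \ N` (AJ.StCon (1)), it does not end in `L'` (`N` is a
component), so it ends in `K'`, and `K' ∪ N` is connected (`con_union`), avoids `L`, is larger than `K'`: contradiction. -/
def StPAR : Prop := ∀ (V : Type) [Finite V] (G : SimpleGraph V) (W K L : Set V), Con G W → Con G K → Con G L →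
  K ⊆ W → L ⊆ W → Disjoint K L →
  ∃ K' L' : Set V, K ⊆ K' ∧ L ⊆ L' ∧ Disjoint K' L' ∧ K' ∪ L' = W ∧ Con G K' ∧ Con G L' ∧ Tch G K' L'

/-- PTR.  Planarity passes to minors, also if isolated vertices are not represented.
Proof.  Let `φ` be a model of `K₅` or `K₃,₃` in `H`.  Every `a ∈ φ w` has a neighbour in `H` (if `φ w = {a}` then one in another branch set, as `w` has a neighbour; otherwise one in the connected set `φ w`).  The sets
`χ w = ⋃ a ∈ φ w, f a` are a model in `K` (connectedness: along walks in `φ w`, as in AJ.StTrn (1)).  So `K` is not planar.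
(In particular: subgraphs; `Planar (G.induce U) ↔ Planar (rst G U)`; contraction of an edge.) -/
def StPTR : Prop := ∀ (α β : Type) (H : SimpleGraph α) (K : SimpleGraph β) (f : α → Set β),
  (∀ a a', H.Adj a a' → Con K (f a)) →
  (∀ a a' b b', a ≠ b → H.Adj a a' → H.Adj b b' → Disjoint (f a) (f b)) →
  (∀ a a', H.Adj a a' → Tch K (f a) (f a')) → Planar K → Planar H

/-- KCA.  Elementary facts on `Kc`, `rst`, `add`, `cnt`.
Proofs.  (1) is clear.  (2) `(U \ {w}) \ X = U \ (X ∪ {w})` and `|X ∪ {w}| < k + 1`; `|U \ {w}| ≥ |U| - 1 > k`.  (3) Let `X` be the set; if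
`|X| < k` then `U \ X` is connected and contains `a` and another vertex (`|U| > k ≥ |X| + 1`), but `a` has no neighbour in it.  (4), (5): `Con G S` only
depends on the edges inside `S`.  (6) Planarity is inherited by subgraphs: AJ.StJnm (3) with branch sets `{v}`, or StPTR.  (7) StPTR with `f a = {a}` and `f (a : U) = {a.1}`.  (8) StPTR with
`f u = {u, v}` and `f a = {a}` otherwise. -/
def StKCA : Prop := ∀ (V : Type) [Finite V] (G : SimpleGraph V) (U : Set V),
  (∀ k, Kc (k + 1) G U → Kc k G U) ∧
  (∀ k, Kc (k + 1) G U → ∀ w, Kc k G (U \ {w})) ∧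
  (∀ k, Kc k G U → ∀ a ∈ U, k ≤ {b | b ∈ U ∧ G.Adj a b}.ncard) ∧
  (∀ S ⊆ U, (Con G S ↔ Con (rst G U) S)) ∧
  (∀ (H : SimpleGraph V) (S : Set V), (∀ a ∈ S, ∀ b ∈ S, (G.Adj a b ↔ H.Adj a b)) → (Con G S ↔ Con H S)) ∧
  (∀ H H' : SimpleGraph V, H ≤ H' → Planar H' → Planar H) ∧
  (Planar (G.induce U) ↔ Planar (rst G U)) ∧
  (∀ u ∈ U, ∀ v ∈ U, G.Adj u v → Planar (rst G U) → Planar (rst (cnt G u v) (U \ {v})))

/-- KCB.  In a `k`-connected graph a set `S` of `k` vertices is attached to every component of the rest; adding a vertex with three neighbours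
keeps a graph 3-connected.
Proof.  (1) `U \ S ≠ ∅` since `|U| > k`.  Let `K` be a component of `U \ S`.  Suppose `s ∈ S` has no neighbour in `K`.  `X = S \ {s}` has fewer than
`k` elements, so `U \ X` is connected, `K ⊆ U \ X`, `K ≠ U \ X` (it does not contain `s`), so by AJ.StCon (1) there is an edge from `K` to
`(U \ X) \ K`; its end is not `s`, so it is in `U \ S`, contradiction (`K` is a component; the same proof for the second part of (1)).  (2) Let `|X| < 3`, `W = insert y U \ X`.  If `y ∈ X`
then `W = U \ X`, connected in `G`, so in the new graph.  If `y ∉ X` then `W = insert y (U \ X)`, `U \ X` is connected (`|X| < 3`), and `y` has a neighbour in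
`N \ X ≠ ∅`. -/
def StKCB : Prop := ∀ (V : Type) [Finite V] (G : SimpleGraph V) (U : Set V),
  (∀ (k : ℕ) (S : Set V), Kc k G U → S ⊆ U → S.ncard = k →
    (∃ K ⊆ U \ S, Con G K ∧ ∀ s ∈ S, Tch G {s} K) ∧
    (∀ K ⊆ U \ S, Con G K → (∀ x ∈ K, ∀ y ∈ U \ S, G.Adj x y → y ∈ K) → ∀ s ∈ S, Tch G {s} K)) ∧
  (∀ (y : V) (N : Set V), Kc 3 G U → y ∉ U → N ⊆ U → 3 ≤ N.ncard → Kc 3 (add (rst G U) y N) (insert y U))

/-- MNR.  How to see that a graph is not planar.  Proof: the sets are the branch sets of a `K₅`, resp. `K₃,₃` minor (`Planar`, `IsMinor`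
in AJ/Defs.lean). -/
def StMNR : Prop := ∀ (α : Type) (H : SimpleGraph α), Planar H →
  (∀ A : Fin 5 → Set α, (∀ i, Con H (A i)) → (∀ i j, i ≠ j → Disjoint (A i) (A j)) →
    (∀ i j, i ≠ j → Tch H (A i) (A j)) → False) ∧
  (∀ A B : Fin 3 → Set α, (∀ i, Con H (A i)) → (∀ i, Con H (B i)) → (∀ i j, i ≠ j → Disjoint (A i) (A j)) →
    (∀ i j, i ≠ j → Disjoint (B i) (B j)) → (∀ i j, Disjoint (A i) (B j)) → (∀ i j, Tch H (A i) (B j)) → False)

/-! ### crossing sets on a cycle -/

/-- CMB.  Two subsets of a cycle cross or do not cross.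
Proof.  Suppose `¬ Crs`.  Case 1: there is `b ∈ B \ A`, `b = c i₀`.  If `A = ∅`: `i = i₀`, `k = 0`.  Otherwise let `p`, `q` be the smallest and the largest
`t ∈ {1, ..., m - 1}` with `c (i₀ + t) ∈ A` (every element of `A` is such a `c (i₀ + t)` since `b ∉ A`).  If `c (i₀ + t) ∈ B` with `p < t < q` then the positions
`i = i₀ + p`, `r = t - p`, `s = q - p`, `t' = m - p` show `Crs` (first form; `c (i₀ + m) = b ∈ B`).  So `B` has no element strictly between `p` and `q`, and
`NCr` holds with `i = i₀ + p`, `k = q - p`: `A` is at the distances `0, ..., k` from `i`, `B` at the distances `t - p` (`q ≤ t ≤ m`) and `t + m - p`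
(`0 ≤ t ≤ p`), all between `k` and `m`.
Case 2: `B ⊆ A`.  Since `¬ Crs` (second form), `B` has at most two elements.  `B = ∅`: `k = m`, any `i`.  `B = {c i₀}`: `i = i₀`, `k = m` (`c (i₀ + m) = c i₀`).
`B = {c i₀, c (i₀ + t₀)}`, `0 < t₀ < m`: if `A` had elements at some distance `p ∈ (0, t₀)` and at some `q ∈ (t₀, m)` from `i₀` then `i = i₀ + p`, `t₀ - p`,
`q - p`, `m - p` show `Crs`.  If there is none in `(t₀, m)`: `i = i₀`, `k = t₀` (`B` is at the distances `k` and `m`).  If there is none in `(0, t₀)`:
`i = i₀ + t₀`, `k = m - t₀`. -/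
def StCMB : Prop := ∀ (V : Type) (m : ℕ) (c : ZMod m → V) (A B : Set V), 3 ≤ m → Function.Injective c →
  A ⊆ Set.range c → B ⊆ Set.range c → NCr m c A B ∨ Crs m c A B

/-- CMC.  At most two vertices meet all crossings.
Proof.  Step 1: there are four different vertices `a₁, b₁, a₂, b₂` in this cyclic order on `c` with `a₁, a₂ ∈ A`, `b₁, b₂ ∈ B` (first form of `Crs`).  Otherwise
there are three common elements `x, y, z` (so `A ∩ B ≠ ∅` and `|A| ≥ 4`) and a fourth element `a ∈ A`; it lies on the open arc between two of them, say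
between `x` and `y` (not containing `z`; rename and use both orientations), and `a, y, z, x` is such a cyclic order.
Step 2: let `Z = {z | z ∈ range c, ¬ Crs m c (A \ {z}) (B \ {z})}`.  `Z ⊆ {a₁, b₁, a₂, b₂}`, since otherwise these four vertices still cross.
Step 3: not both `a₁, a₂ ∈ Z`.  (a) There is `a₃ ∈ A \ {a₁, a₂, b₁, b₂}`: if `a₃` is on the open arc from `b₂` to `b₁` containing `a₁` then `a₃, b₁, a₂, b₂` is a
crossing without `a₁`, so `a₁ ∉ Z`; otherwise it is on the other arc and `a₁, b₁, a₃, b₂` is a crossing without `a₂`, so `a₂ ∉ Z`.  (b) Otherwise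
`A ⊆ {a₁, a₂, b₁, b₂}`; if `A ∩ B = ∅` then `A ⊆ {a₁, a₂}`, impossible (`|A| ≥ 3`); so `|A|, |B| ≥ 4` and `A = {a₁, a₂, b₁, b₂}`.  If there is
`b₃ ∈ B \ {a₁, a₂, b₁, b₂}`: if `b₃` is between `a₁` and `b₁` then `a₁, b₃, b₁, b₂` (in `A, B, A, B`) is a crossing without `a₂`; if it is between `b₂` and `a₁` then
`b₂, b₃, a₁, b₁` is one; so `a₂ ∉ Z`; symmetrically, if `b₃` is on the side of `a₂` (between `b₁` and `a₂`, or `a₂` and `b₂`) then `b₁, b₃, a₂, b₂`, resp. `a₂, b₃, b₂, b₁`, are
crossings without `a₁`, so `a₁ ∉ Z`.  Otherwise `B = A` has four elements, and after deleting `a₁` there are three common elements, so `a₁ ∉ Z`.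
Step 4: in the same way (exchange `A` and `B`; the crossing `b₁, a₂, b₂, a₁`) not both `b₁, b₂ ∈ Z`.  So `|Z| ≤ 2`.
(Suggestion: identify positions with elements of `{0, ..., m-1}` after a rotation which puts `a₁` at `0`; or reduce to a statement about at most 8 positions in a
linear order, where `omega`/`decide` can help.) -/
def StCMC : Prop := ∀ (V : Type) (m : ℕ) (c : ZMod m → V) (A B : Set V), 3 ≤ m → Function.Injective c →
  A ⊆ Set.range c → B ⊆ Set.range c →
  ((4 ≤ A.ncard ∧ 4 ≤ B.ncard) ∨ (3 ≤ A.ncard ∧ 3 ≤ B.ncard ∧ Disjoint A B)) → Crs m c A B →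
  {z | z ∈ Set.range c ∧ ¬ Crs m c (A \ {z}) (B \ {z})}.ncard ≤ 2

/-- CRX.  Crossings give `K₅` or `K₃,₃`: a closed chain of connected sets `S i` and two connected sets `P`, `Q` attached to crossing sets of indices, `P` and
`Q` adjacent, or both attached to nothing else but together with a third set `T` attached to all `S i`.
Proof.  First form of `Crs`: `i ∈ I`, `i + r ∈ J`, `i + s ∈ I`, `i + t ∈ J`.  Let `X₁ = S i ∪ ... ∪ S (i + r - 1)`, `Y₁ = S (i + r) ∪ ... ∪ S (i + s - 1)`, `X₂ = S (i + s) ∪ ... ∪ S (i + t - 1)`,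
`Y₂ = S (i + t) ∪ ... ∪ S (i + m - 1)`: connected (induction with `con_union`), disjoint, cyclically adjacent, `P` touches `X₁, X₂`, `Q` touches `Y₁, Y₂`.  (1) `P, Y₁, Y₂` and
`Q, X₁, X₂` form a `K₃,₃` minor.  (2) `X₁ ∪ P, X₂, Y₁ ∪ Q, Y₂, T` form a `K₅` minor (`X₁ ∪ P` touches `X₂` through `P`, `Y₁ ∪ Q` touches `Y₂` through `Q`).
Second form: three different common indices; rotate and order them as `i`, `i + r`, `i + s`, `0 < r < s < m`, and `X₁ = S i ∪ ... ∪ S (i + r - 1)`, `X₂ = S (i + r) ∪ ...`, `X₃ = S (i + s) ∪ ... ∪ S (i + m - 1)`: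
pairwise adjacent.  (1) `X₁, X₂, X₃, P, Q` form a `K₅` minor.  (2) `X₁, X₂, X₃` and `P, Q, T` form a `K₃,₃` minor.  (StMNR) -/
def StCRX : Prop := ∀ (α : Type) (H : SimpleGraph α) (m : ℕ) (S : ZMod m → Set α) (P Q : Set α) (I J : Set (ZMod m)), 3 ≤ m →
  (∀ i, Con H (S i)) → (∀ i j, i ≠ j → Disjoint (S i) (S j)) → (∀ i, Tch H (S i) (S (i + 1))) →
  Con H P → Con H Q → Disjoint P Q → (∀ i, Disjoint P (S i)) → (∀ i, Disjoint Q (S i)) →
  (∀ i ∈ I, Tch H P (S i)) → (∀ i ∈ J, Tch H Q (S i)) → Crs m (fun i : ZMod m => i) I J →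
  (Tch H P Q → ¬ Planar H) ∧
  (∀ T : Set α, Con H T → Disjoint T P → Disjoint T Q → (∀ i, Disjoint T (S i)) → (∀ i, Tch H T (S i)) → ¬ Planar H)

/-! ### rotation systems -/

/-- RPW.  Planar in the sense of rotation systems implies planar in Wagner's form.
Proof.  `K₅` and `K₃,₃` have no planar rotation system: by Euler's formula (PM.stEul) `K₅` would have 7 faces, but the 20 darts lie in face cycles of length at least 3 (a face
cycle of length 1 or 2 is impossible in a simple graph with all degrees ≥ 2), so at most 6 faces; `K₃,₃` would have 5 faces, but the 18 darts lie in face cycles of length at least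
4 (bipartite: even length, not 2), at most 4 faces.  (Or use rotation systems of these two small graphs in any other way.)  If `H` has a `K₅` or `K₃,₃` minor then
this graph is RPlanar by PM.stMin (for the map `R.map`), contradiction. -/
def StRPW : Prop := ∀ (V : Type) [Finite V] (H : SimpleGraph V), RPlanar H → Planar H

/-- PLU.  The graph with a new vertex in every face is planar.
Proof.  New darts `a d`, `b d`, `g d` for `d : H.Dart` (three copies of `H.Dart`).  `ι' (a d) = a (d.symm)`, `ι' (b d) = g d`, `ι' (g d) = b d`.  `r' (a d) = b (r d)`, `r' (b d) = a d`,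
`r' (g d) = g (φ⁻¹ d)`.  The vertex of `a d`, `b d` is `inl d.fst`, the vertex of `g d` is `inr ⟦d⟧`.  This is a `PMap`: transitivity around the vertices is clear (`R.trans`; cycles of
`φ`).  PLANARITY (`Pl r' ι'`): let `x'`, `u'` be given, `x' ∘ ι' = x'`, `u' (r' δ) = u' δ + x' δ`.  Put `x d = x' (a d)`, `β d = x' (b d) = x' (g d)`, `γ d = u' (g d)`, so
`γ (φ d) = γ d + β (φ d)` (from `u' (g (φ⁻¹ e)) = u' (g e) + β e`, `e = φ d`).  Put `x~ d = x d + γ d + γ (d.symm)`, `u~ d = u' (a d) + γ d`.  Then `x~ (d.symm) = x~ d` and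
`u~ (r d) = u~ d + x~ d`: indeed `u' (a (r d)) = u' (b (r d)) + β (r d) = u' (a d) + x d + β (r d)` and `γ (r d) = γ (φ (d.symm)) = γ (d.symm) + β (r d)`.  `Pl r ι` gives `Z` with
`Z (r d) = Z d + x~ d`, `Z (d.symm) = Z d + x~ d`; hence `Z (φ d) = Z d`.  Put `y' (a d) = y' (g d) = γ d + Z d`, `y' (b d) = γ d + Z d + β d`.  All conditions hold: for `a d`:
`y' (b (r d)) = γ (r d) + Z (r d) + β (r d) = γ (d.symm) + Z d + x~ d = y' (a d) + x d`; `y' (a (d.symm)) = γ (d.symm) + Z d + x~ d = y' (a d) + x d`; for `b d` and the edge `b d, g d` clear;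
for `g d`: `y' (g (φ⁻¹ d)) = γ (φ⁻¹ d) + Z d = γ d + β d + Z d`.  Then extract a rotation system of the simple graph `rplus R` with `PMap.exists_rot` (choose for every dart of `rplus R` a dart of the new map,
compatible with reversal: for `inl a, inl b` the dart `a d`, for `inl a, inr q` one of the `b e` with `⟦e⟧ = q`, `e.fst = a`, and `g e` for the reversed dart); `H.Dart` is
finite. -/
def StPLU : Prop := ∀ (V : Type) [Finite V] (H : SimpleGraph V) (R : Rot H), RPlanar (rplus R)

/-- FCY.  Faces of a 2-connected plane graph are cycles.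
Proof.  (i) A face visits a vertex `v` at most once: if `R.φ.SameCycle d d'`, `d.fst = d'.fst = v`, `d ≠ d'`, then PM.stCutV gives a colouring `c` of the darts with `c d.symm = c d`, constant
around every vertex other than `v`, `c d ≠ c d'`.  Let `a = d.snd`, `a' = d'.snd` (both in `U \ {v}`).  `U \ {v}` is connected (Kc 2), so there is a path from `a` to `a'` in it; along it the
colour (of all darts at the current vertex) does not change; so `c d = c d.symm = c d'.symm = c d'`, contradiction.  (ii) The face cycle of `d` has length `m ≥ 3`: length 1 would give a dart with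
`fst = snd`; if `φ (φ d) = d`, `d = (a, b)`, then `(φ d).fst = b`, `(φ d).snd = (φ (φ d)).fst = a`, so `φ d = d.symm`, `r (d.symm) = d.symm`, so `b` has only one neighbour, but it has at least two
(StKCA (3)).  So `c j = ((φ ^ j) d).fst`, `j : ZMod m`, `m` the period of `d`.  (iii) If `d` and `d.symm` were in one face, `d = (c 0, c 1)`, then `d.symm = (c j, c (j + 1))` for some `j`, so `j = 1` and
`c 2 = c 0`, contradiction to `m ≥ 3`. -/
def StFCY : Prop := ∀ (V : Type) [Finite V] (G : SimpleGraph V) (U : Set V) (R : Rot (rst G U)), Kc 2 G U → ∀ d : (rst G U).Dart,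
  (∃ (m : ℕ) (c : ZMod m → V), FCy R m c ∧ Set.range c = fac R d ∧ (c 0, c 1) = d.toProd) ∧
  ¬ R.φ.SameCycle d d.symm

/-- PER.  Faces of a 3-connected plane graph are peripheral cycles.
Proof.  Let `F = range c`; all darts `(c j, c (j+1))` lie in one face `q` (a vertex `inr q` of `rplus R`, adjacent to exactly the elements of ... at least all elements of `F`).  `rplus R` is planar (StPLU,
StRPW).  `F ⊆ U` and consecutive vertices are adjacent.  INDUCED: suppose `p = c i`, `p' = c j` are adjacent and not consecutive.  The two open arcs between them are nonempty, connected; `U \ {p, p'}` is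
connected (Kc 3); StPAR gives connected `K', L'` containing the arcs, `K' ∪ L' = U \ {p, p'}`, touching.  `{inl p}, {inl p'}, {inr q}, inl '' K', inl '' L'` form a `K₅` minor of `rplus R`.
COMPLEMENT CONNECTED: `U ≠ F` because the vertices of `F` have degree at least 3 (StKCA (3)) and only two neighbours in `F`.  Suppose `K₁ ≠ K₂` are components of `U \ F`.
`A₁ = {x ∈ F | x has a neighbour in K₁}`, same `A₂`; `|A₁|, |A₂| ≥ 3` (otherwise `A₁` separates `K₁` from the rest of `U`, contradiction to Kc 3).  `¬ Crs m c A₁ A₂` and more generally `¬ Crs m c A A'`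
for the attachment sets of two different components: StCRX, second part, in `rplus R` with `S i = {inl (c i)}`, `P = inl '' K₁`, `Q = inl '' K₂`, `T = {inr q}`.  So `NCr m c A₁ A₂` (StCMB): closed arcs.
Shrink the first arc to the smallest closed arc `α = {c (i), ..., c (i + k)}` containing `A₁` (then still `A₂ ⊆` the complementary closed arc `β = {c (i+k), ..., c (i+m)}`) with end points `p = c i`, `p' = c (i + k)` in `A₁`; `p ≠ p'`,
as `|A₁| ≥ 3`.  Let `I` be the set of the interior vertices of `β`; `A₁ ∩ I = ∅`, `A₂ ∩ I ≠ ∅` as `|A₂| ≥ 3`.  Let `X` be the union of `I` and of all components `K` of `U \ F` with an attachment in `I`.  Every neighbour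
(in `U`) of an element of `X` is in `X ∪ {p, p'}`: for an element of `I` and a neighbour in `F` (consecutive, as the cycle is induced) or in a component; for an element of a component `K ⊆ X` (`K ≠ K₁`) and a
neighbour `z ∈ F`: if `z` were an interior vertex of `α` then `p` (in `A₁`), an attachment of `K` in `I`, `p'` (in `A₁`), `z`: crossing of the attachment sets of `K₁` and `K`, contradiction.  So `{p, p'}` separates `X` from `K₁`,
contradiction to Kc 3. -/
def StPER : Prop := ∀ (V : Type) [Finite V] (G : SimpleGraph V) (U : Set V) (R : Rot (rst G U)), Kc 3 G U →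
  ∀ (m : ℕ) (c : ZMod m → V), FCy R m c → Pcy G U m c

/-- FAC.  Peripheral cycles of a 3-connected plane graph are faces.
Proof.  Let `c` be a peripheral cycle, `C = range c`, `K = U \ C`, connected.  Every `c i` has a neighbour in `K` (degree ≥ 3, StKCA (3); only two neighbours in `C`).  Let `d = (c 0, c 1)`.  The faces `q = ⟦d⟧` and
`q' = ⟦d.symm⟧` are different (StFCY).  By StFCY and StPER the vertex sets `F = fac R d` and `F' = fac R d.symm` are vertex sets of induced cycles through `c 0` and `c 1`.  If `F ⊆ C` then `F = C`: every vertex of `F` has two neighbours in `F ⊆ C`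
and exactly two in `C`, so `F` is closed under going to the neighbours on `c`.  Same for `F'`.  Suppose neither `F = C` nor `F' = C`.  Then `F`, `F'` meet `K`.  In the planar graph `rplus R` (StPLU, StRPW) the sets
`{inl (c 0)}, {inl (c 1)}, inl '' K` and `{inr q}, {inr q'}, inl '' (C \ {c 0, c 1})` form a `K₃,₃` minor: `C \ {c 0, c 1}` is a nonempty path, touches `c 0`, `c 1` and `K`; `q, q'` touch `c 0, c 1, K`; contradiction. -/
def StFAC : Prop := ∀ (V : Type) [Finite V] (G : SimpleGraph V) (U : Set V) (R : Rot (rst G U)), Kc 3 G U →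
  ∀ F, IsFace G U F → ∃ d, fac R d = F

/-- RDL.  The faces after the deletion of a vertex `w`.
Proof.  Apply `PMap.exists_rot` to `R.map` with `g = id` and the inclusion of the darts.  It gives `R'` with `R'.r d' =` the first of `r d, r (r d), ...` which is not a dart to (or from) `w`; at a vertex `b ≠ w` there is at most one
dart to `w`.  Let `d` be a dart of the smaller graph.  `R'.φ d = r' (d.symm)`: if `r (d.symm) = (b, w)` then it is `r (b, w) = φ (w, b)`, a dart in the face of `(w, b)`, which contains `w`; and then the face of `d` contains `w` too (`φ d = (b, w)` and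
`φ (b, w)` starts at `w`).  Otherwise `R'.φ d = R.φ d` (as darts).  So: if the face of `d` does not contain `w`, then `R'.φ = R.φ` along the whole face, `fac R' d = fac R d`.  If the face of `d` contains `w` then the `R`-face of `R'.φ d` also
contains `w`; by induction all darts of the `R'`-face of `d` lie in `R`-faces containing `w` (the two cases are exclusive). -/
def StRDL : Prop := ∀ (V : Type) [Finite V] (G : SimpleGraph V) (U : Set V) (w : V) (R : Rot (rst G U)),
  ∃ R' : Rot (rst G (U \ {w})), ∀ (d' : (rst G (U \ {w})).Dart) (d : (rst G U).Dart), d.toProd = d'.toProd →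
    (w ∉ fac R d ∧ fac R' d' = fac R d) ∨ (∀ x ∈ fac R' d', ∃ e, w ∈ fac R e ∧ x ∈ fac R e)

/-- RDN.  After the deletion of a vertex `w` of a 3-connected plane graph all neighbours of `w` lie in one face.
Proof.  `R'` as in StRDL (from `PMap.exists_rot`).  For a neighbour `b` of `w` let `f b = r (b, w)`, a dart starting at `b`, not a dart to `w` (`b` has at least 3 neighbours).  Let `(w, b₂) = r (w, b)`, the next dart at `w`.
Claim: `f b` and `f b₂` are in the same `R'`-face.  `φ (b, w) = r (w, b) = (w, b₂)`, `φ (w, b₂) = r (b₂, w) = f b₂`: the face of `(b, w)` passes `b, w, b₂` and goes on with `f b₂`.  It visits `w` only once (StFCY, `Kc 3 → Kc 2`).  Follow it from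
`f b₂` up to the last dart `e` before `(b, w)`: no dart on the way starts at `w` or ends at `w`; so `R'.φ = R.φ` on these darts except `e`, and `R'.φ e = r' (e.symm)`: `r (e.symm) = φ e = (b, w)` is skipped, so it is `r (b, w) = f b`.  Since the rotation
is transitive on the darts at `w` (`R.trans`), all `f b` are in one face. -/
def StRDN : Prop := ∀ (V : Type) [Finite V] (G : SimpleGraph V) (U : Set V) (w : V) (R : Rot (rst G U)), Kc 3 G U → w ∈ U →
  ∃ (R' : Rot (rst G (U \ {w}))) (d' : (rst G (U \ {w})).Dart), ∀ b ∈ U, G.Adj w b → b ∈ fac R' d'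

/-- INT.  Two adjacent new vertices in a face, with attachments which do not cross.
Proof.  `NCr` gives `i`, `k`; we may assume `1 ≤ k ≤ m - 1` (if `k = 0` replace `k` by `1`, if `k = m` by `m - 1` and note that then `B ⊆ {c i}` ...: if `k = 0` then `A ⊆ {c i}` and `k = 1` is also possible because `c (i + m) = c i` covers the
elements of `B` at distance `0`; if `k = m` then `B ⊆ {c (i + m)} = {c i}` and `k = m - 1` works with the same `i`, since `A` at distance `m` is at distance `0`).  `p = c i`, `p' = c (i + k)`.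
Step 1: `H` with a path `p, s, p'` through the face, `s` a new vertex: a map `M₂` (`Pl.pend`, `Pl.insEdge` in PM/Fix.lean) on the vertex type `Option V` or `V ⊕ Unit`, whose face permutation has one cycle through `c i, ..., c (i + k), s` and
one through `c (i + k), ..., c (i + m), s` (the old face is cut in two).  Step 2: the construction of StPLU applied to the map `M₂` (it works for every `PMap`; do it for maps, or use rotation systems: `M₂` is a map of a simple graph, so it is a `Rot`): a planar map with face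
vertices `f₁` (adjacent to `c i, ..., c (i+k), s`) and `f₂` (adjacent to `c (i + k), ..., c (i + m), s`).  Step 3: PM.stMin with the branch sets `{f₁, s}` for `u`, `{f₂}` for `v`, `{x}` for all other `x` (vertices `u`, `v` themselves are isolated in
`H`).  Other ways are fine (for example inserting the edges at `u` and then at `v` one after the other with `Pl.pend` and `Pl.insEdge`).
(`u`, `v` are not on `c` because they are isolated in `H`.) -/
def StINT : Prop := ∀ (V : Type) [Finite V] (H : SimpleGraph V) (R : Rot H) (m : ℕ) (c : ZMod m → V) (u v : V) (A B : Set V),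
  FCy R m c → u ≠ v → (∀ x, ¬ H.Adj u x) → (∀ x, ¬ H.Adj v x) → A ⊆ Set.range c → B ⊆ Set.range c → NCr m c A B →
  RPlanar (add (add H u A) v (insert u B))

/-- CTR.  Every 3-connected graph with at least five vertices has an edge whose contraction is 3-connected (Thomassen).
Proof.  For an edge `x y`, if `cnt G x y` is not 3-connected on `U \ {y}` then there is `z ∈ U \ {x, y}` such that `U \ {x, y, z}` is not connected: `|U \ {y}| ≥ 4`; a set `X` with `|X| ≤ 2` and `(U \ {y}) \ X` not connected in `cnt G x y`: if `x ∉ X` then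
`U \ X` would be connected in `G` and contracting an edge keeps it connected; so `x ∈ X`, and `U \ (X ∪ {y})` is not connected in `G`, so `|X| = 2`, `X = {x, z}` (Kc 3 for `|X ∪ {y}| < 3`).  Suppose this happens for all edges.  Choose an edge `x y`, `z`, and a component `K` of
`U \ {x, y, z}` with `|K|` minimal.  `z` has a neighbour `v ∈ K` (otherwise `{x, y}` separates `K`; or StKCB (1)).  For the edge `z v` there is `w` with `U \ {z, v, w}` not connected.  `x`, `y` are adjacent, so (those of them which are not `w`) lie in one component; let `D` be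
another component of `U \ {z, v, w}`, so `x, y ∉ D`.  `D` has a neighbour `v`: StKCB (1) (its proof gives it for EVERY component) for `{z, v, w}`: some `d ∈ D` is adjacent to `v`; `d ∉ {x, y, z}`, so `d ∈ K` (`K` is a component of `U \ {x, y, z}` and
`v ∈ K`), and `D` is connected and avoids `x, y, z`, so `D ⊆ K`, and `v ∉ D`: `|D| < |K|`, contradiction to the minimality (the edge `z v`, `w`, `D`). -/
def StCTR : Prop := ∀ (V : Type) [Finite V] (G : SimpleGraph V) (U : Set V), Kc 3 G U → 5 ≤ U.ncard →
  ∃ u ∈ U, ∃ v ∈ U, G.Adj u v ∧ Kc 3 (cnt G u v) (U \ {v})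

/-- KUR.  Kuratowski's theorem (Wagner's form) for 3-connected graphs.
Proof.  Induction on `|U| ≥ 4`.  `|U| = 4`: `rst G U` is `K₄` (with isolated vertices), which is a minor of a grid (PM.stTop2) or has an explicit rotation system.  `|U| ≥ 5`: `u`, `v` by StCTR, `G₁ = cnt G u v`, `U₁ = U \ {v}`.  `rst G₁ U₁` is a minor of
`rst G U` up to isolated vertices, so Planar (StKCA (8)); by induction there is `R₁ : Rot (rst G₁ U₁)`.  StRDN with `w = u`: `R'` on `rst G₁ (U₁ \ {u}) = rst G (U \ {u, v})` (the edges inside `U \ {u, v}` are the same: rewrite) and a face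
containing all `G₁`-neighbours of `u`.  `Kc 2 G₁ (U₁ \ {u})` (StKCA (2)), StFCY: the face is a cycle `c`.  `A`, `B` the neighbours of `u`, `v` in `U \ {u, v}`: `A, B ⊆ range c`.  StCMB.  If `NCr` then StINT: `add (add H u A) v (insert u B)` with `H = rst G (U \ {u, v})`
is RPlanar, and it contains (is) `rst G U` (`PM.Planar.mono`).  If `Crs` then StCRX (first part, `S i = {c i}`, `P = {u}`, `Q = {v}`, in the graph `rst G U`): not Planar, contradiction. -/
def StKUR : Prop := ∀ (V : Type) [Finite V] (G : SimpleGraph V) (U : Set V), Kc 3 G U → Planar (rst G U) → RPlanar (rst G U)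

/-! ### the interface: faces of 3-connected planar graphs -/

/-- TUT.  (Tutte, Whitney)  If a new vertex joined to `N` keeps the graph planar then `N` lies in a face; and two adjacent new vertices with
attachments in this face which do not cross keep it planar.
Proof.  `G' = add (rst G U) y N`, `U' = insert y U`: `Kc 3 G' U'` (StKCB (2)), Planar (rst G' U') (subgraph of `G'`), StKUR: `R : Rot (rst G' U')`; StRDN with `w = y`: `R'` on `rst G' (U' \ {y})`, which equals `rst G U` (rewrite), and a face containing `N`; StFCY: cycle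
`c`, StPER: peripheral.  The last part is StINT for `R'` and `c`, then StRPW. -/
def StTUT : Prop := ∀ (V : Type) [Finite V] (G : SimpleGraph V) (U N : Set V) (y : V), Kc 3 G U → N ⊆ U → 3 ≤ N.ncard → y ∉ U →
  Planar (add (rst G U) y N) →
  ∃ (m : ℕ) (c : ZMod m → V), Pcy G U m c ∧ N ⊆ Set.range c ∧
    ∀ A B : Set V, A ⊆ Set.range c → B ⊆ Set.range c → NCr m c A B → ∀ u v, u ∉ U → v ∉ U → u ≠ v →
      Planar (add (add (rst G U) u A) v (insert u B))

/-- INS.  A new vertex in a face.  Proof.  StKUR: `R`; StFAC: the face is `fac R d`; StPLU: `rplus R` is RPlanar, so Planar (StRPW); `add (rst G U) y N` is a subgraph of `rplus R` (map `y` to `inr ⟦d⟧`, the other vertices `x` to `inl x`): AJ.StJnm (3). -/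
def StINS : Prop := ∀ (V : Type) [Finite V] (G : SimpleGraph V) (U F N : Set V) (y : V), Kc 3 G U → Planar (rst G U) →
  IsFace G U F → N ⊆ F → y ∉ U → Planar (add (rst G U) y N)

/-- PLS.  The graph with a new vertex in every face is planar.  Proof.  StKUR, StFAC: every face `F` is `fac R (d F)`; `F ↦ ⟦d F⟧` is injective (`fac R d` depends only on the class of `d`); `plus G U` is a subgraph of `rplus R`, which is RPlanar (StPLU), Planar
(StRPW). -/
def StPLS : Prop := ∀ (V : Type) [Finite V] (G : SimpleGraph V) (U : Set V), Kc 3 G U → Planar (rst G U) → Planar (plus G U)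

/-- EDF.  Every edge lies in two faces.  Proof.  StKUR: `R`.  `d = (a, b)`: the faces `F = fac R d`, `F' = fac R d.symm` (StFCY, StPER: they are faces `IsFace`) contain `a`, `b`.  `q = ⟦d⟧ ≠ q' = ⟦d.symm⟧` (StFCY).  If `F = F'` take three
different `x, y, z ∈ F` (at least 3 elements) and a connected `K ⊆ U \ {x, y, z}` touching `x, y, z` (StKCB (1) with `k = 3`): `{x}, {y}, {z}` and `{q}, {q'}, K` form a `K₃,₃` minor of the planar graph `rplus R` (StPLU, StRPW), contradiction. -/
def StEDF : Prop := ∀ (V : Type) [Finite V] (G : SimpleGraph V) (U : Set V) (a b : V), Kc 3 G U → Planar (rst G U) →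
  a ∈ U → b ∈ U → G.Adj a b → ∃ F F' : Set V, IsFace G U F ∧ IsFace G U F' ∧ F ≠ F' ∧ a ∈ F ∧ b ∈ F ∧ a ∈ F' ∧ b ∈ F'

/-- FDL.  The faces after the deletion of `w`.  Proof.  StKUR: `R : Rot (rst G U)`; StRDL: `R'`; StFAC for `U \ {w}`: `F' = fac R' d'`; let `d` be the same dart of `rst G U`.  Either `F' = fac R d` with `w` not in it, a face of `G` on `U` (StFCY, StPER), or
every `x ∈ F'` lies in some `fac R e` containing `w`, which is a face. -/
def StFDL : Prop := ∀ (V : Type) [Finite V] (G : SimpleGraph V) (U : Set V) (w : V), Kc 3 G U → Kc 3 G (U \ {w}) →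
  Planar (rst G U) → ∀ F', IsFace G (U \ {w}) F' → IsFace G U F' ∨ ∀ x ∈ F', Cof G U w x

/-! ### consequences: small configurations of faces (all with `K₅`, `K₃,₃` minors of `plus G U`, StPLS, StMNR) -/

/-- FPA.  Common vertices of faces.
Proofs.  A face `F` is `inr F` in `plus G U`, adjacent to the `inl x`, `x ∈ F`.  (1) Three common vertices `x, y, z` of `F ≠ F'`: StKCB (1) gives a connected `K ⊆ U \ {x, y, z}` touching all three; `{x}, {y}, {z}` and `{F}, {F'}, K`: `K₃,₃`.
(2) `p ≠ q` common and not adjacent: they are not consecutive on the cycle `F`, so the two open arcs of `F` between them are nonempty and connected; `U \ {p, q}` is connected (Kc 3), StPAR: `K', L'`; `{p, F'}, {q}, {F}, K', L'`: `K₅`.  (3) Three faces with two common vertices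
`p ≠ q`: `K = U \ {p, q}` is connected, touches `p` and `q` (they have degree ≥ 3) and every face (which has a third vertex): `{p}, {q}, K` and `{F₁}, {F₂}, {F₃}`: `K₃,₃`. -/
def StFPA : Prop := ∀ (V : Type) [Finite V] (G : SimpleGraph V) (U : Set V), Kc 3 G U → Planar (rst G U) →
  (∀ F F', IsFace G U F → IsFace G U F' → F ≠ F' → ∀ x y z, x ∈ F → y ∈ F → z ∈ F → x ∈ F' → y ∈ F' → z ∈ F' →
    x ≠ y → y ≠ z → x ≠ z → False) ∧
  (∀ F F', IsFace G U F → IsFace G U F' → F ≠ F' → ∀ p q, p ∈ F → q ∈ F → p ∈ F' → q ∈ F' → p ≠ q → G.Adj p q) ∧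
  (∀ F₁ F₂ F₃, IsFace G U F₁ → IsFace G U F₂ → IsFace G U F₃ → F₁ ≠ F₂ → F₂ ≠ F₃ → F₁ ≠ F₃ → ∀ p q, p ≠ q →
    p ∈ F₁ → q ∈ F₁ → p ∈ F₂ → q ∈ F₂ → p ∈ F₃ → q ∈ F₃ → False)

/-- FPB.  A vertex outside a face `F` of a 4-connected planar graph, cofacial with vertices of `F`.
Proofs.  (1) `w ∉ F` cofacial with three vertices `t i ∈ F`: `|U| ≥ 5`; StKCB (1) with `k = 4`, `S = {t 0, t 1, t 2, w}`: a connected `K ⊆ U \ S` touching all; `{t 0}, {t 1}, {t 2}` and `{F}, {w, F₀, F₁, F₂}, K`: `K₃,₃` of `plus G U`, where `F i` is a face containing `t i` and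
`w` (`F i ≠ F` as `w ∉ F`; the set `{w, F₀, F₁, F₂}` is connected).  (2) `p ≠ q` in `F` not adjacent, `w ∉ F` cofacial with both (faces `F₁ ∋ p, w`, `F₂ ∋ q, w`, different from `F`): the two open arcs of `F` between `p` and `q` are nonempty connected subsets of
`U \ {p, q, w}`, which is connected (Kc 4), StPAR: `K', L'`; `{p, F₁, w, F₂}, {q}, {F}, K', L'`: `K₅`.  (3) `p ≠ q` adjacent, `F ≠ F'` faces containing both, `w` in neither of them, cofacial with both: `K = U \ {p, q, w}` is connected, touches `p`, `q`, `w` (degrees ≥ 4), `F` and `F'`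
(a third vertex, which is not `w`); `{p}, {q}, K` and `{F}, {F'}, {F₁, w, F₂}`: `K₃,₃`. -/
def StFPB : Prop := ∀ (V : Type) [Finite V] (G : SimpleGraph V) (U : Set V), Kc 4 G U → Planar (rst G U) →
  (∀ (F : Set V) (t : Fin 3 → V) (w : V), IsFace G U F → Function.Injective t → (∀ i, t i ∈ F) → w ∈ U → w ∉ F →
    (∀ i, Cof G U (t i) w) → False) ∧
  (∀ (F : Set V) (p q w : V), IsFace G U F → p ∈ F → q ∈ F → p ≠ q → ¬ G.Adj p q → w ∈ U → w ∉ F →
    Cof G U p w → Cof G U q w → False) ∧
  (∀ (F F' : Set V) (p q w : V), IsFace G U F → IsFace G U F' → F ≠ F' → p ∈ F → q ∈ F → p ∈ F' → q ∈ F' → p ≠ q →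
    G.Adj p q → w ∈ U → w ∉ F → w ∉ F' → Cof G U p w → Cof G U q w → False)

/-- FPC.  Three vertices `s i` cofacial with three other vertices `t j`, no face containing two of the `t j`.  Proof.  `{s 0}, {s 1}, {s 2}` and `T j = {t j} ∪ {all faces containing t j}` (`j = 0, 1, 2`; disjoint, connected) form a `K₃,₃` minor of `plus G U`. -/
def StFPC : Prop := ∀ (V : Type) [Finite V] (G : SimpleGraph V) (U : Set V), Kc 3 G U → Planar (rst G U) →
  ∀ s t : Fin 3 → V, Function.Injective s → Function.Injective t → (∀ i j, s i ≠ t j) → (∀ i j, Cof G U (s i) (t j)) →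
    (∀ F i j, IsFace G U F → i ≠ j → t i ∈ F → t j ∈ F → False) → False

/-! ### the excluded minor -/

/-- EXM.  The three properties of an excluded minor.
Proof.  HN: `G` is not apex; `Planar (G.induce {x}ᶜ)` and `Planar (rst G {x}ᶜ)` are equivalent (each is a minor of the other up to isolated vertices: a `K₅` or `K₃,₃` minor has no isolated vertices, so the branch sets in `rst G U` lie in `U`).  HD: `G' = G.deleteEdges {s(y, f)}` is a minor
of `G`, not isomorphic to `G` (fewer edges), so apex.  If `Planar G'` take any `x ≠ y, f` (there are at least 7 vertices).  If `Planar (G'.induce {x}ᶜ)`: `x = y` or `x = f` is impossible, because then it is `G.induce {x}ᶜ` and `G` would be apex.  In both cases the graph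
`add (rst G {x, y}ᶜ) y (N(y) \ {x, f})` is a subgraph of `rst G' {x}ᶜ`.  HK: the contraction of `v` into `u` on the vertex type `{a // a ≠ v}` is a minor with fewer vertices, so apex: planar, or planar after deleting `y`; if it is planar, or `y = u`, then
`rst G {u, v}ᶜ` is planar; otherwise `add (rst G {u, v, y}ᶜ) u {...}` is planar. -/
def StEXM : Prop := ∀ (V : Type) [Finite V] (G : SimpleGraph V), 7 ≤ Nat.card V → ExMinor G → HN G ∧ HD G ∧ HK G

/-- HCN.  Connectivity from `Hyp`.
Proof.  `|{x}ᶜ|`, ...: `Nat.card V ≥ 7`.  (1) `{x, y}ᶜ \ X = ({x, y} ∪ X)ᶜ`, at most 4 vertices deleted.  (2), (3): at most 5 deleted, if exactly 5 then the edge `u v` is among them.  (4) If `y` has at most 4 neighbours, delete `X = N(y)`: `Xᶜ` is connected, contains `y` and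
another vertex, but `y` is isolated in it.  (5) If `N(y)` has exactly 5 elements and contains an edge then `N(y)ᶜ` is connected, and it contains `y` and another vertex (`7 > 6`), contradiction. -/
def StHCN : Prop := ∀ (V : Type) [Finite V] (G : SimpleGraph V), Hyp G →
  (∀ x y, Kc 3 G {x, y}ᶜ) ∧
  (∀ u v y, G.Adj u v → Kc 3 G {u, v, y}ᶜ) ∧
  (∀ u v, G.Adj u v → Kc 4 G {u, v}ᶜ) ∧
  (∀ y, 5 ≤ {b | G.Adj y b}.ncard) ∧
  (∀ y, {b | G.Adj y b}.ncard = 5 → ∀ a b, G.Adj y a → G.Adj y b → ¬ G.Adj a b)

/-- STA.  Step 1: `|Π(y)| ≥ deg y`.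
Proof.  `N = N(y)`.  For `f ∈ N` HD gives `x = x(f) ≠ y, f` with `Planar (add (rst G U) y (N \ {x, f}))`, `U = {x, y}ᶜ`.  `rst G U` is a subgraph, so planar: `x ∈ PiS G y`.  `Kc 3 G U` (StHCN (1)), `N \ {x, f} ⊆ U` has at least 3 elements, so StTUT gives a face `F ⊇ N \ {x, f}`.
`N \ {x}` lies in no face `F'` of `G` on `U`: otherwise `Planar (add (rst G U) y (N \ {x}))` by StINS, but this graph is `rst G {x}ᶜ`, contradiction to HN.  Claim: `f ↦ x(f)` is injective on `N`.  Let `x(f) = x(f') = x`, `f ≠ f'`, with faces `F ⊇ N \ {x, f}`, `F' ⊇ N \ {x, f'}`.  `F ≠ F'`,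
otherwise `N \ {x} ⊆ F`.  `M = N \ {x, f, f'} ⊆ F ∩ F'`.  If `|N| ≥ 6` then `|M| ≥ 3`, contradiction to StFPA (1).  If `|N| = 5` then `|M| ≥ 2`, two elements of `M` are adjacent by StFPA (2), contradiction to StHCN (5).  So `|N| ≤ |PiS G y|`. -/
def StSTA : Prop := ∀ (V : Type) [Finite V] (G : SimpleGraph V), Hyp G → HN G → HD G → ∀ y, {b | G.Adj y b}.ncard ≤ (PiS G y).ncard

/-- STB.  Step 2: `G - u - v` is planar for every edge `u v`.
Proof.  Suppose not.  HK gives `y ≠ u, v`; `U = {u, v, y}ᶜ`, `A`, `B` the sets of the neighbours of `u`, resp. `v`, in `U`; `Planar (add (rst G U) u (A ∪ B))`.  `Kc 3 G U` (StHCN (2)).  `|A|, |B| ≥ 3` (degrees ≥ 5, minus `v` and `y`).  StTUT (new vertex `u`, `N = A ∪ B`): `c` peripheral, `A ∪ B ⊆ range c`.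
If `NCr m c A B` then `Planar (add (add (rst G U) u A) v (insert u B))`, but this graph contains (is) `rst G {y}ᶜ`, contradiction to HN.  So `Crs m c A B` (StCMB).
Let `z ∈ PiS G y`, `z ≠ u, v`, so `z ∈ U` and `H = rst G {y, z}ᶜ` is planar.  Claim: `z ∈ range c` and `¬ Crs m c (A \ {z}) (B \ {z})`.  If `z ∉ range c`: StCRX (first part) in `H` with `S i = {c i}`, `P = {u}`, `Q = {v}`, `I = {i | c i ∈ A}`, `J = {i | c i ∈ B}`: not planar, contradiction.  If `z = c i₀` and
`Crs m c (A \ {z}) (B \ {z})`: the same with `S i₀ = U \ range c` (connected; every `c i` has a neighbour in it, because it has at least 3 neighbours in `U`, StKCA (3), and exactly two on the cycle), `S i = {c i}` for `i ≠ i₀`, `I = {i | c i ∈ A \ {z}}`, ....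
Sizes: if `deg u = 5` or `deg v = 5` then `A ∩ B = ∅` (a common neighbour of `u` and `v` would give an edge inside `N(u)`, `N(v)`: StHCN (5)); otherwise `|A|, |B| ≥ 4`.  So StCMC applies: at most two such `z`, `|PiS G y| ≤ 4`.  But `5 ≤ deg y ≤ |PiS G y|` (StHCN (4), StSTA). -/
def StSTB : Prop := ∀ (V : Type) [Finite V] (G : SimpleGraph V), Hyp G → HN G → HD G → HK G → ∀ u v, G.Adj u v → Planar (rst G {u, v}ᶜ)

/-- STC.  Step 3: the combinatorial contradiction.  `S`, `T`: the neighbours of the two ends of an edge.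
Proof.  `Cof` is symmetric.  CASE A: `S ∩ T = ∅`, `|S|, |T| ≥ 4` and (say) `T` is independent (the case `S` independent is the same with `S` and `T` exchanged).  For `w ∈ S`: `T \ {w} = T` lies in no face, so `w` is cofacial with all elements of `T`.  No face `F` contains two different elements
`p, q` of `T`: they are not adjacent, so by StFPB (2) all `w ∈ S` lie in `F` (`w ≠ p, q`, as `S ∩ T = ∅`), contradiction (`S` is in no face).  Now StFPC with three elements of `S` and three of `T`: contradiction.
CASE B: `|S|, |T| ≥ 5`.  Let `S' = {w ∈ S | ∀ t ∈ T, t ≠ w → Cof w t}`, `T' = {t ∈ T | ∀ w ∈ S, w ≠ t → Cof t w}`.  (B1) `|S \ S'| ≤ 1`: if `w ≠ w'` are in `S \ S'` then `T \ {w} ⊆ F`, `T \ {w'} ⊆ F'` for faces `F`, `F'`; `T \ {w, w'}` has at least 3 elements, so `F = F'`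
(StFPA (1)) and `T ⊆ F`, contradiction.  So `|S'| ≥ 4`, and in the same way `|T'| ≥ 4`.  (B2) `|F ∩ T| ≤ 2` for every face `F`: suppose `t 0, t 1, t 2 ∈ F ∩ T`.  Every `w ∈ S'` is in `F` (otherwise StFPB (1)).  So `F` contains at least three elements of `S`, and in the same way `T' ⊆ F`.
`T` is not contained in `F`: take `t₀ ∈ T \ F`.  Three elements of `S'` lie in `F` and are cofacial with `t₀ ∉ F`: contradiction to StFPB (1).  In the same way `|F ∩ S| ≤ 2`.  (B3) Two different elements `p, q` of `T` in a common face `F` are adjacent: otherwise by StFPB (2) all `w ∈ S' \ {p, q}` lie in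
`F`; `|S'| ≥ 4` and `|F ∩ S| ≤ 2`, so exactly two of them, `S' = {w₁, w₂, p, q} ⊆ F`, contradiction.  In the same way for `S`.  (B4) There are `t ≠ t'` in `T` in a common face: otherwise `S' ∩ T = ∅` (an element `w` of it is cofacial with another element of `T`), and StFPC (three elements of `S'`, three of `T`) gives a
contradiction.  By (B3) `t`, `t'` are adjacent; let `F`, `F'` be two different faces containing them (StEDF).  (B5) `S' ⊆ (F ∪ F') ∩ S`: for `w ∈ S' \ {t, t'}` StFPB (3).  As `|F ∩ S|, |F' ∩ S| ≤ 2` and `|S'| ≥ 4`: `F ∩ S` and `F' ∩ S` are disjoint and have two elements each and their union is `S'`; in particular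
`t, t' ∉ S`; `F ∩ S = {w₁, w₂}`, `w₁ ≠ w₂` in `S'`.  `w₁, w₂ ∉ T` (otherwise `|F ∩ T| ≥ 3`).  `w₁`, `w₂` are adjacent (B3 for `S`); let `F'' ≠ F` be a face containing them (StEDF gives two different faces containing `w₁, w₂`; one of them is not `F`).  For `t'' ∈ T \ {t, t'}`: `t''` is cofacial with `w₁` and `w₂`, so
`t'' ∈ F ∪ F''` (StFPB (3)), and `t'' ∉ F` by (B2); so `F''` contains the at least three elements of `T \ {t, t'}`, contradiction to (B2). -/
def StSTC : Prop := ∀ (V : Type) [Finite V] (G : SimpleGraph V) (U S T : Set V), Kc 4 G U → Planar (rst G U) → S ⊆ U → T ⊆ U →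
  (∀ F, IsFace G U F → ¬ S ⊆ F) → (∀ F, IsFace G U F → ¬ T ⊆ F) →
  (∀ w ∈ S, (∃ F, IsFace G U F ∧ T \ {w} ⊆ F) ∨ ∀ t ∈ T, t ≠ w → Cof G U w t) →
  (∀ t ∈ T, (∃ F, IsFace G U F ∧ S \ {t} ⊆ F) ∨ ∀ w ∈ S, w ≠ t → Cof G U t w) →
  ((5 ≤ S.ncard ∧ 5 ≤ T.ncard) ∨
    (4 ≤ S.ncard ∧ 4 ≤ T.ncard ∧ Disjoint S T ∧ ((∀ a ∈ S, ∀ b ∈ S, ¬ G.Adj a b) ∨ (∀ a ∈ T, ∀ b ∈ T, ¬ G.Adj a b)))) → False

/-- STD.  Step 4: assembly.
Proof.  `G` has an edge `u v` (degrees ≥ 5).  `U = {u, v}ᶜ`, `S = N(u) \ {v}`, `T = N(v) \ {u}`.  `Kc 4 G U` (StHCN (3)), `Planar (rst G U)` (StSTB).  `S` lies in no face `F`: otherwise StINS (`Kc 4 → Kc 3`) gives `Planar (add (rst G U) u S)`, which is `rst G {v}ᶜ`, contradiction to HN.  Same for `T`.  For `w ∈ S`: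
`Planar (rst G {u, w}ᶜ)` (StSTB for the edge `u w`), and this graph is `add (rst G (U \ {w})) v (T \ {w})`; `Kc 3 G (U \ {w})` (StHCN (2) with `y = w`: `U \ {w} = {u, v, w}ᶜ`), `|T \ {w}| ≥ 3`; StTUT: `T \ {w}` lies in a face `F'` of `G` on `U \ {w}`; StFDL: `F'` is a face of `G` on `U`, or all its elements are cofacial with `w`.
Same for `t ∈ T`.  Sizes: if `deg v = 5` then `T` is independent and `S ∩ T = ∅` (StHCN (5)), same for `u`; otherwise `|S|, |T| ≥ 5`.  StSTC. -/
def StSTD : Prop := ∀ (V : Type) [Finite V] (G : SimpleGraph V), Hyp G → HN G → HD G → HK G → False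

end Pool.Agent.Helper12.NK
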